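import Mathlib
import Pool.Agent.R222.BHB.Defs
import Pool.Agent.R222.BHB.Main

/-!
# Besov and Hardy-Bessel capacities with `0 < p < 1` have the same null sets

The quasi-norms are the smooth atomic ones of Frazier and Jawerth (file
`Pool/Agent/R222/BHB/Defs.lean`).

Idea of the proof. The trivial part is `B ≤ A` (`ℓ^p ⊂ ℓ²`). If `αp < n` and `B_{α,p}(K) = 0` then
`H^{n-αp}(K) = 0` (Carleson embedding for the prefix maximal function on the dyadic tree and
rounding of a fractional dyadic cover). The new part is `H^{n-αp}(K) = 0 ⟹ A_{α,p,p}(K) = 0`: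
take a dyadic cover of `K` of minimal cost `∑ ℓ(Q)^{n-αp}`; in the parent of every cover cube `Q`
there is a much smaller cube `S(Q)` carrying only a small portion of the cover, and the bump of `Q`
is corrected on `S(Q)` so that its moments up to the critical order `N` vanish, at the price of the
height `λ^{-(n+N)}`, `λ = ℓ(S(Q))/ℓ(Q)`. As `(n+N)p < n` the damage done on other cover cubes is
absorbed by increasing the amplitudes along the tree.
-/

set_option autoImplicit false

open MeasureTheory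

namespace Pool.Agent.Results.MP_9b3711_an.NullSets

open Pool.Agent.R222.BHB

/-- For `0 < p < 1`, `0 < α` and compact `K ⊆ ℝⁿ`: `A_{α,p,p}(K) = 0 ↔ B_{α,p}(K) = 0`; for
`αp < n` this happens iff `H^{n-αp}(K) = 0`, for `αp ≥ n` iff `K = ∅`. The capacities may be
computed with any classes of continuous functions containing `C_c^∞`. -/
theorem result {n : ℕ} (hn : 0 < n) {p α : ℝ} (hp : 0 < p) (hp1 : p < 1) (hα : 0 < α)
    {𝒟₁ 𝒟₂ : Set ((Fin n → ℝ) → ℝ)}
    (h₁ : ∀ u, IsTest u → u ∈ 𝒟₁) (h₁' : ∀ u ∈ 𝒟₁, Continuous u)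
    (h₂ : ∀ u, IsTest u → u ∈ 𝒟₂) (h₂' : ∀ u ∈ 𝒟₂, Continuous u)
    {K : Set (Fin n → ℝ)} (hK : IsCompact K) :
    (capA 𝒟₁ p α K = 0 ↔ capB 𝒟₂ p α K = 0) ∧
    (α * p < n → (capA 𝒟₁ p α K = 0 ↔ Measure.hausdorffMeasure (n - α * p) K = 0)) ∧
    (n ≤ α * p → (capA 𝒟₁ p α K = 0 ↔ K = ∅)) :=
  main hn hp hp1 hα h₁ h₁' h₂ h₂' hK

end Pool.Agent.Results.MP_9b3711_an.NullSets
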